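import Pool.Agent.Lib.MP_571595_lc.MORT.H15.Mob
import Pool.Agent.Lib.MP_571595_lc.MORT.H15.Two
import Pool.Agent.Lib.MP_571595_lc.MORT.H63.Sys
import Pool.Agent.Lib.MP_571595_lc.MORT.H12.Junc
import Pool.Agent.Lib.MP_571595_lc.MORT.H12.Hit
import Pool.Agent.Lib.MP_571595_lc.MORT.H21.Norm
import Pool.Agent.Lib.MP_571595_lc.MORT.H21.Comp
import Pool.Agent.Lib.MP_571595_lc.MORT.H21.Final
import Pool.Agent.Lib.MP_571595_lc.MORT.H65.Level
import Pool.Agent.Lib.MP_571595_lc.MORT.H65.Run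
import Pool.Agent.Lib.MP_571595_lc.MORT.H82.Dec
import Pool.Agent.Lib.MP_571595_lc.MORT.H27.Data
import Pool.Agent.Lib.MP_571595_lc.MORT.H36.Mach
import Pool.Agent.Lib.MP_571595_lc.MORT.H41.Mortal
import Pool.Agent.Lib.MP_571595_lc.MORT.H41.Red

/-!
# Mortality of 2x2 integer matrices: fixed nonsingular matrices, one variable matrix of rank one
-/

set_option autoImplicit false

namespace Pool.Agent.Lib.MP_571595_lc.H41

open Matrix Pool.Agent.Lib.MP_571595_lc.MORT Pool.Agent.Lib.MP_571595_lc.MORT.H41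

/-- Proposition A -/
theorem hit : HitStatement := by
  have mob : MobStatement := H15.mob
  have nr : NormStatement ∧ RecStatement := H21.norm mob (H63.sys mob) (H12.junc mob)
  have dec : DecStatement := H82.dec nr.1 H65.level
  have run : RunStatement := H65.run nr.1 nr.2
  exact @H12.hit mob nr.1 dec run (H15.Two.two mob)

/-- The target vector. -/
def tgt (α β : ℕ) (a b : Fin 2 → ℤ) (N : ℕ) : Fin 2 → ℤ :=
  fun j => a j * (α : ℤ) ^ N + b j * (β : ℤ) ^ N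

/-- The hitting problem, with cleared denominators. -/
theorem hitting {Q R : Type} [Finite Q] [Finite R] (C : CM (Fin 5) Q R) (D : Data C) :
    ∃ (ι : Type) (_ : Fintype ι) (Z : ι → Matrix (Fin 2) (Fin 2) ℤ) (v : Fin 2 → ℤ) (α β : ℕ)
      (a b : Fin 2 → ℤ), (∀ i, (Z i).det ≠ 0) ∧ v ≠ 0 ∧ (∀ N, tgt α β a b N ≠ 0) ∧
      ∀ N : ℕ, (∃ u : List ι, tgt α β a b N ⬝ᵥ ((u.map Z).prod *ᵥ v) = 0) ↔
        D.Hit (Pi.single 0 N) := by
  classical
  let ι : Type := {x : Option (Tr (Fin 5) Q R) // ∀ τ, x = some τ → τ.ok C}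
  have hfin : Finite ι := inferInstance
  have : Fintype ι := Fintype.ofFinite ι
  let M : ι → G := fun x => D.letter x.1
  choose Nn Zz hN hZ using fun i => exists_int_matrix (M i : Matrix (Fin 2) (Fin 2) ℚ)
  have hprod : ∀ u : List ι, ((u.map Zz).prod).map (Int.cast : ℤ → ℚ) =
      ((u.map fun i => (Nn i : ℚ)).prod) • ((u.map M).prod : G).val := by
    intro u
    induction u with
    | nil => simp
    | cons i u ih =>
      rw [List.map_cons, List.prod_cons, List.map_cons, List.prod_cons, List.map_cons,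
        List.prod_cons]
      have h1 : (Zz i * (u.map Zz).prod).map (Int.cast : ℤ → ℚ) =
          (Zz i).map (Int.cast : ℤ → ℚ) * ((u.map Zz).prod).map (Int.cast : ℤ → ℚ) := by
        exact Matrix.map_mul (f := Int.castRingHom ℚ)
      rw [h1, ih, hZ, Units.val_mul, Matrix.smul_mul, Matrix.mul_smul, smul_smul]
  have hNp : ∀ u : List ι, (u.map fun i => (Nn i : ℚ)).prod ≠ 0 := by
    intro u
    apply List.prod_ne_zero
    simp only [List.mem_map, not_exists, not_and]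
    intro i _ h
    exact hN i (by exact_mod_cast h)
  have hdet : ∀ i, (Zz i).det ≠ 0 := by
    intro i h0
    have h1 : ((Zz i).map (Int.cast : ℤ → ℚ)).det = 0 := by
      have := (Int.castRingHom ℚ).map_det (Zz i)
      rw [h0] at this
      simpa using this.symm
    rw [hZ, Matrix.det_smul] at h1
    have h2 := (M i).det_ne_zero
    have h3 : (Nn i : ℚ) ≠ 0 := by exact_mod_cast hN i
    simp only [Fintype.card_fin, mul_eq_zero, pow_eq_zero_iff, ne_eq, OfNat.ofNat_ne_zero,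
      not_false_eq_true] at h1
    rcases h1 with h1 | h1
    · exact h3 h1
    · exact h2 h1
  -- the vector of `x0`
  obtain ⟨g, hg⟩ : ∃ g : G, g = (D.Cm (aeS false))⁻¹ := ⟨_, rfl⟩
  obtain ⟨h, hh⟩ : ∃ h : G, h = (D.Cm (aeS true))⁻¹ := ⟨_, rfl⟩
  obtain ⟨a', ha'⟩ : ∃ a' : ℚ, a' = g 0 0 * 1 + g 0 1 * (-D.s) := ⟨_, rfl⟩
  obtain ⟨b', hb'⟩ : ∃ b' : ℚ, b' = g 1 0 * 1 + g 1 1 * (-D.s) := ⟨_, rfl⟩
  have hab' : a' ≠ 0 ∨ b' ≠ 0 := by
    rw [ha', hb']
    exact vec_ne g 1 (-D.s) (Or.inl one_ne_zero)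
  obtain ⟨K, Z, hK, hZz⟩ := exists_int_matrix !![a', b'; 0, 0]
  have hKq : (K : ℚ) ≠ 0 := by exact_mod_cast hK
  have hZ0 : (Z 0 0 : ℚ) = K * a' := by
    have := congrFun (congrFun hZz 0) 0
    simpa using this
  have hZ1 : (Z 0 1 : ℚ) = K * b' := by
    have := congrFun (congrFun hZz 0) 1
    simpa using this
  -- the vector orthogonal to `y`
  obtain ⟨K2, Z2, hK2, hZ2⟩ := exists_int_matrix !![h 1 0, -(h 1 1 * D.p); -h 0 0, h 0 1 * D.p]
  have hK2q : (K2 : ℚ) ≠ 0 := by exact_mod_cast hK2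
  have h200 : (Z2 0 0 : ℚ) = K2 * h 1 0 := by
    have := congrFun (congrFun hZ2 0) 0
    simpa using this
  have h201 : (Z2 0 1 : ℚ) = K2 * -(h 1 1 * D.p) := by
    have := congrFun (congrFun hZ2 0) 1
    simpa using this
  have h210 : (Z2 1 0 : ℚ) = K2 * -h 0 0 := by
    have := congrFun (congrFun hZ2 1) 0
    simpa using this
  have h211 : (Z2 1 1 : ℚ) = K2 * (h 0 1 * D.p) := by
    have := congrFun (congrFun hZ2 1) 1
    simpa using this
  -- the multiplier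
  obtain ⟨u, hu⟩ : ∃ u : ℚ, u = (D.rho (Pi.single (0 : Fin 5) 1) : ℚ) := ⟨_, rfl⟩
  have hupos : 0 < u := by rw [hu]; exact D.rho_pos _
  have hβ : (u.den : ℚ) ≠ 0 := by exact_mod_cast u.den_nz
  obtain ⟨α, hα⟩ : ∃ α : ℕ, (α : ℚ) = u * u.den := by
    refine ⟨u.num.toNat, ?_⟩
    have h1 : (u.num.toNat : ℤ) = u.num := Int.toNat_of_nonneg (Rat.num_nonneg.mpr hupos.le)
    rw [Rat.mul_den_eq_num]
    exact_mod_cast h1
  obtain ⟨β, hβ2⟩ : ∃ β : ℕ, β = u.den := ⟨_, rfl⟩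
  rw [← hβ2] at hβ hα
  have hcdN : ∀ N : ℕ, (((Z2 0 1 * (α : ℤ) ^ N + Z2 0 0 * (β : ℤ) ^ N : ℤ) : ℚ) =
        K2 * (β : ℚ) ^ N * (h 1 0 * 1 + h 1 1 * (-(D.p * u ^ N)))) ∧
      (((Z2 1 1 * (α : ℤ) ^ N + Z2 1 0 * (β : ℤ) ^ N : ℤ) : ℚ) =
        -(K2 * (β : ℚ) ^ N * (h 0 0 * 1 + h 0 1 * (-(D.p * u ^ N))))) := by
    intro N
    constructor
    · push_cast
      rw [hα, h201, h200, mul_pow]
      ring
    · push_cast
      rw [hα, h211, h210, mul_pow]
      ring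
  have hcdne : ∀ N : ℕ, (Z2 0 1 * (α : ℤ) ^ N + Z2 0 0 * (β : ℤ) ^ N) ≠ 0 ∨
      (Z2 1 1 * (α : ℤ) ^ N + Z2 1 0 * (β : ℤ) ^ N) ≠ 0 := by
    intro N
    have hKβ : (K2 : ℚ) * (β : ℚ) ^ N ≠ 0 := mul_ne_zero hK2q (pow_ne_zero _ hβ)
    rcases vec_ne h 1 (-(D.p * u ^ N)) (Or.inl one_ne_zero) with h1 | h1
    · right
      intro h2
      have h3 := (hcdN N).2
      rw [h2, Int.cast_zero] at h3
      exact mul_ne_zero hKβ h1 (neg_eq_zero.mp h3.symm)
    · left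
      intro h2
      have h3 := (hcdN N).1
      rw [h2, Int.cast_zero] at h3
      exact mul_ne_zero hKβ h1 h3.symm
  have hab : Z 0 0 ≠ 0 ∨ Z 0 1 ≠ 0 := by
    rcases hab' with h1 | h1
    · left
      intro h2
      rw [h2, Int.cast_zero] at hZ0
      exact mul_ne_zero hKq h1 hZ0.symm
    · right
      intro h2
      rw [h2, Int.cast_zero] at hZ1
      exact mul_ne_zero hKq h1 hZ1.symm
  refine ⟨ι, this, Zz, ![Z 0 0, Z 0 1], α, β, ![Z2 0 1, Z2 1 1], ![Z2 0 0, Z2 1 0], hdet, ?_, ?_,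
    ?_⟩
  · intro h0
    have h1 := congrFun h0 0
    have h2 := congrFun h0 1
    simp at h1 h2
    rcases hab with h3 | h3
    · exact h3 h1
    · exact h3 h2
  · intro N h0
    have h1 := congrFun h0 0
    have h2 := congrFun h0 1
    simp [tgt] at h1 h2
    rcases hcdne N with h3 | h3
    · exact h3 h1
    · exact h3 h2
  intro N
  obtain ⟨c, hc⟩ : ∃ c : ℤ, c = Z2 0 1 * (α : ℤ) ^ N + Z2 0 0 * (β : ℤ) ^ N :=
    ⟨_, rfl⟩
  obtain ⟨d, hd⟩ : ∃ d : ℤ, d = Z2 1 1 * (α : ℤ) ^ N + Z2 1 0 * (β : ℤ) ^ N :=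
    ⟨_, rfl⟩
  have htgt : tgt α β ![Z2 0 1, Z2 1 1] ![Z2 0 0, Z2 1 0] N = ![c, d] := by
    funext j
    fin_cases j
    · simp [tgt, hc]
    · simp [tgt, hd]
  rw [htgt]
  -- the value of a word
  have hval : ∀ u : List ι,
      (((![c, d] : Fin 2 → ℤ) ⬝ᵥ ((u.map Zz).prod *ᵥ ![Z 0 0, Z 0 1]) : ℤ) : ℚ) =
      (u.map fun i => (Nn i : ℚ)).prod *
        ((c : ℚ) * ((u.map M).prod 0 0 * (Z 0 0 : ℚ) + (u.map M).prod 0 1 * (Z 0 1 : ℚ)) +
          d * ((u.map M).prod 1 0 * (Z 0 0 : ℚ) + (u.map M).prod 1 1 * (Z 0 1 : ℚ))) := by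
    intro u
    have h00 := congrFun (congrFun (hprod u) 0) 0
    have h01 := congrFun (congrFun (hprod u) 0) 1
    have h10 := congrFun (congrFun (hprod u) 1) 0
    have h11 := congrFun (congrFun (hprod u) 1) 1
    simp only [Matrix.map_apply, Matrix.smul_apply, smul_eq_mul] at h00 h01 h10 h11
    simp only [dotProduct, Matrix.mulVec, Fin.sum_univ_two, Matrix.cons_val_zero,
      Matrix.cons_val_one]
    push_cast
    rw [h00, h01, h10, h11]
    ring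
  have hzero : ∀ u : List ι,
      (![c, d] : Fin 2 → ℤ) ⬝ᵥ ((u.map Zz).prod *ᵥ ![Z 0 0, Z 0 1]) = 0 ↔
      (c : ℚ) * ((u.map M).prod 0 0 * (Z 0 0 : ℚ) + (u.map M).prod 0 1 * (Z 0 1 : ℚ)) +
          d * ((u.map M).prod 1 0 * (Z 0 0 : ℚ) + (u.map M).prod 1 1 * (Z 0 1 : ℚ)) = 0 := by
    intro u
    have h1 := hval u
    constructor
    · intro h
      rw [h, Int.cast_zero] at h1
      rcases mul_eq_zero.mp h1.symm with h2 | h2
      · exact absurd h2 (hNp u)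
      · exact h2
    · intro h
      rw [h, mul_zero] at h1
      exact_mod_cast h1
  -- the coordinates of `y`
  obtain ⟨y0, hy0⟩ : ∃ y0 : ℚ, y0 = h 0 0 * 1 + h 0 1 * (-(D.p * u ^ N)) := ⟨_, rfl⟩
  obtain ⟨y1, hy1⟩ : ∃ y1 : ℚ, y1 = h 1 0 * 1 + h 1 1 * (-(D.p * u ^ N)) := ⟨_, rfl⟩
  have hy : y0 ≠ 0 ∨ y1 ≠ 0 := by
    rw [hy0, hy1]
    exact vec_ne h 1 _ (Or.inl one_ne_zero)
  have hcq : (c : ℚ) = K2 * (β : ℚ) ^ N * y1 := by
    rw [hc, hy1]
    exact (hcdN N).1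
  have hdq : (d : ℚ) = -(K2 * (β : ℚ) ^ N * y0) := by
    rw [hd, hy0]
    exact (hcdN N).2
  have hKβ : (K2 : ℚ) * (β : ℚ) ^ N ≠ 0 := mul_ne_zero hK2q (pow_ne_zero _ hβ)
  -- the points
  have hx0 : D.pe (Pi.single 0 N) false = ofVec a' b' := by
    have hs : -D.s ≠ 0 := neg_ne_zero.mpr D.s_ne
    unfold Data.pe Data.ec
    simp only
    rw [← hg, pt_L _ hs, smul_ofVec g 1 (-D.s) (Or.inl one_ne_zero), ← ha', ← hb']
  have hyy : D.pe (Pi.single 0 N) true = ofVec y0 y1 := by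
    have hp : -(D.p * (D.rho (toZ (Pi.single (0 : Fin 5) N)) : ℚ)) ≠ 0 :=
      neg_ne_zero.mpr (mul_ne_zero D.p_ne (Units.ne_zero _))
    unfold Data.pe Data.ec
    simp only
    rw [← hh, pt_L _ hp, smul_ofVec h 1 _ (Or.inl one_ne_zero), rho_toZ, ← hu, ← hy0, ← hy1]
  have hkey : ∀ P : G, P • D.pe (Pi.single 0 N) false = D.pe (Pi.single 0 N) true ↔
      (c : ℚ) * (P 0 0 * (Z 0 0 : ℚ) + P 0 1 * (Z 0 1 : ℚ)) +
        d * (P 1 0 * (Z 0 0 : ℚ) + P 1 1 * (Z 0 1 : ℚ)) = 0 := by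
    intro P
    rw [hx0, hyy, smul_ofVec P a' b' hab', ofVec_eq_iff _ _ _ _ (vec_ne P a' b' hab') hy,
      hcq, hdq, hZ0, hZ1]
    have e : K2 * (β : ℚ) ^ N * y1 * (P 0 0 * (K * a') + P 0 1 * (K * b')) +
        -(K2 * (β : ℚ) ^ N * y0) * (P 1 0 * (K * a') + P 1 1 * (K * b')) =
        (K2 * (β : ℚ) ^ N * K) *
          ((P 0 0 * a' + P 0 1 * b') * y1 - (P 1 0 * a' + P 1 1 * b') * y0) := by
      ring
    rw [e, mul_eq_zero]
    constructor
    · intro h1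
      exact Or.inr h1
    · rintro (h1 | h1)
      · exact absurd h1 (mul_ne_zero hKβ hKq)
      · exact h1
  constructor
  · rintro ⟨w, hw⟩
    rw [hzero] at hw
    refine ⟨w.map Subtype.val, ?_, ?_⟩
    · intro τ hτ
      rw [List.mem_map] at hτ
      obtain ⟨x, _, hx⟩ := hτ
      exact x.2 τ hx
    · rw [hkey, List.map_map]
      exact hw
  · rintro ⟨w, hw, hw2⟩
    have hlift : ∀ x ∈ w, ∀ τ, x = some τ → τ.ok C := by
      intro x hx τ hτ
      subst hτ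
      exact hw τ hx
    obtain ⟨w', rfl⟩ : ∃ w' : List {x : Option (Tr (Fin 5) Q R) // ∀ τ, x = some τ → τ.ok C},
        w'.map Subtype.val = w := by
      refine ⟨w.attachWith _ hlift, ?_⟩
      simp
    refine ⟨w', ?_⟩
    rw [hkey, List.map_map] at hw2
    rw [hzero]
    exact hw2

/-- One counter machine for all recursively enumerable sets. -/
theorem core : ∃ (ι : Type) (_ : Fintype ι) (Z : ι → Matrix (Fin 2) (Fin 2) ℤ) (v : Fin 2 → ℤ)
    (α β : ℕ) (a b : Fin 2 → ℤ), (∀ i, (Z i).det ≠ 0) ∧ v ≠ 0 ∧ (∀ N, tgt α β a b N ≠ 0) ∧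
      ∀ p : ℕ → Prop, REPred p → ∃ N : ℕ → ℕ, Computable N ∧
        ∀ n, p n ↔ ∃ u : List ι, tgt α β a b (N n) ⬝ᵥ ((u.map Z).prod *ᵥ v) = 0 := by
  classical
  let f : ℕ →. ℕ := fun n =>
    Nat.Partrec.Code.eval (Denumerable.ofNat Nat.Partrec.Code n.unpair.1) n.unpair.2
  have hf : Partrec f :=
    Nat.Partrec.Code.eval_part.comp
      ((Computable.ofNat Nat.Partrec.Code).comp (Computable.fst.comp Computable.unpair))
      (Computable.snd.comp Computable.unpair)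
  obtain ⟨Q, R, _, _, C, N, hN, hC⟩ := H36.mach f hf
  obtain ⟨D⟩ := H27.data C
  obtain ⟨ι, hι, Z, v, α, β, a, b, h1, h2, h3, h4⟩ := hitting C D
  refine ⟨ι, hι, Z, v, α, β, a, b, h1, h2, h3, ?_⟩
  intro p hp
  have hp' : Partrec fun n : ℕ => (Part.assert (p n) fun _ => Part.some ()).map fun _ => 0 :=
    Partrec.map hp (Computable.const 0).to₂
  rw [Partrec.nat_iff] at hp'
  obtain ⟨c, hc⟩ := Nat.Partrec.Code.exists_code.1 hp'
  refine ⟨fun n => N (Nat.pair (Encodable.encode c) n), ?_, ?_⟩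
  · exact hN.comp (Primrec₂.natPair.to_comp.comp (Computable.const _) Computable.id)
  · intro n
    rw [h4, hit C D, ← hC]
    have e : f (Nat.pair (Encodable.encode c) n) =
        (Part.assert (p n) fun _ => Part.some ()).map fun _ => 0 := by
      change Nat.Partrec.Code.eval (Denumerable.ofNat Nat.Partrec.Code
        (Nat.pair (Encodable.encode c) n).unpair.1) (Nat.pair (Encodable.encode c) n).unpair.2 = _
      rw [Nat.unpair_pair, Denumerable.ofNat_encode, hc]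
    rw [e]
    simp [Part.assert]

end Pool.Agent.Lib.MP_571595_lc.H41
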