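import Pool.Agent.Lib.MP_571595_lc.H41.Fixed

/-!
# Mortality of 2x2 integer matrices: linear algebra for the final statement
-/

set_option autoImplicit false

namespace Pool.Agent.Lib.MP_571595_lc.H41

open Matrix Pool.Agent.Lib.MP_571595_lc.MORT Pool.Agent.Lib.MP_571595_lc.MORT.H41

/-- Nonsingular matrices together with one matrix of rank one. -/
theorem mortal_iff (H : Finset (Matrix (Fin 2) (Fin 2) ℤ)) (hH : ∀ A ∈ H, A.det ≠ 0)
    (v w : Fin 2 → ℤ) (hv : v ≠ 0) (hw : w ≠ 0) :
    (∃ l : List (Matrix (Fin 2) (Fin 2) ℤ), l ≠ [] ∧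
      (∀ A ∈ l, A ∈ insert (vecMulVec v w) (H : Set (Matrix (Fin 2) (Fin 2) ℤ))) ∧ l.prod = 0) ↔
    ∃ l : List (Matrix (Fin 2) (Fin 2) ℤ), (∀ A ∈ l, A ∈ H) ∧ w ⬝ᵥ (l.prod *ᵥ v) = 0 := by
  have hdet : ∀ u : List {A // A ∈ H}, (u.map Subtype.val).prod.det ≠ 0 := by
    intro u
    induction u with
    | nil => simp
    | cons i u ih =>
      rw [List.map_cons, List.prod_cons, Matrix.det_mul]
      exact mul_ne_zero (hH i.1 i.2) ih
  constructor
  · rintro ⟨l, hl0, hl, hprod0⟩
    by_contra hcon
    push Not at hcon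
    have hne : ∀ u : List {A // A ∈ H}, w ⬝ᵥ ((u.map Subtype.val).prod *ᵥ v) ≠ 0 := by
      intro u
      apply hcon
      intro A hA
      rw [List.mem_map] at hA
      obtain ⟨x, _, rfl⟩ := hA
      exact x.2
    have hform := prod_form (Subtype.val : {A // A ∈ H} → _) v w hne l (by
        intro x hx
        rcases hl x hx with h | h
        · exact Or.inr h
        · exact Or.inl ⟨⟨x, h⟩, rfl⟩)
    rw [hprod0] at hform
    rcases hform with ⟨u, hu⟩ | ⟨u, u', k, hk, hu⟩
    · apply hdet u
      rw [← hu]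
      simp
    · have h1 := (smul_eq_zero.mp hu.symm).resolve_left hk
      rw [vecMulVec_eq_zero] at h1
      rcases h1 with h1 | h1
      · exact hv (Matrix.eq_zero_of_mulVec_eq_zero (hdet u) h1)
      · exact hw (Matrix.eq_zero_of_vecMul_eq_zero (hdet u') h1)
  · rintro ⟨l, hl, h⟩
    refine ⟨vecMulVec v w :: (l ++ [vecMulVec v w]), by simp, ?_, ?_⟩
    · intro A hA
      rw [List.mem_cons, List.mem_append, List.mem_singleton] at hA
      rcases hA with rfl | hA | rfl
      · exact Or.inl rfl
      · exact Or.inr (hl A hA)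
      · exact Or.inl rfl
    · rw [List.prod_cons, List.prod_append, List.prod_singleton, mul_vecMulVec,
        vecMulVec_mul_vecMulVec, h]
      simp

/-- The line spanned by an integer vector. -/
theorem line_eq_iff (x y : Fin 2 → ℤ) (hx : x ≠ 0) (hy : y ≠ 0) :
    Submodule.span ℂ {fun i => (x i : ℂ)} = Submodule.span ℂ {fun i => (y i : ℂ)} ↔
      x 0 * y 1 - x 1 * y 0 = 0 := by
  have hx' : x 0 ≠ 0 ∨ x 1 ≠ 0 := by
    by_contra h
    push Not at h
    apply hx
    funext i
    fin_cases i
    · exact h.1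
    · exact h.2
  have hy' : y 0 ≠ 0 ∨ y 1 ≠ 0 := by
    by_contra h
    push Not at h
    apply hy
    funext i
    fin_cases i
    · exact h.1
    · exact h.2
  rw [Submodule.span_singleton_eq_span_singleton]
  constructor
  · rintro ⟨z, hz⟩
    have h0 := congrFun hz 0
    have h1 := congrFun hz 1
    have h2 : ((x 0 * y 1 - x 1 * y 0 : ℤ) : ℂ) = 0 := by
      push_cast
      rw [← h0, ← h1]
      simp only [Pi.smul_apply, Units.smul_def, smul_eq_mul]
      ring
    exact_mod_cast h2
  · intro h
    have h2 : (x 0 : ℂ) * y 1 - x 1 * y 0 = 0 := by exact_mod_cast h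
    rcases hx' with h0 | h0
    · have h0c : (x 0 : ℂ) ≠ 0 := by exact_mod_cast h0
      have hy0 : y 0 ≠ 0 := by
        rcases hy' with h3 | h3
        · exact h3
        · intro h4
          rw [h4, mul_zero, sub_zero] at h
          rcases mul_eq_zero.mp h with h5 | h5
          · exact h0 h5
          · exact h3 h5
      have hy0c : (y 0 : ℂ) ≠ 0 := by exact_mod_cast hy0
      refine ⟨Units.mk0 ((y 0 : ℂ) / x 0) (div_ne_zero hy0c h0c), ?_⟩
      funext i
      simp only [Units.smul_mk0, Pi.smul_apply, smul_eq_mul]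
      fin_cases i
      · show (y 0 : ℂ) / x 0 * x 0 = y 0
        field_simp
      · show (y 0 : ℂ) / x 0 * x 1 = y 1
        field_simp
        linear_combination -h2
    · have h0c : (x 1 : ℂ) ≠ 0 := by exact_mod_cast h0
      have hy1 : y 1 ≠ 0 := by
        rcases hy' with h3 | h3
        · intro h4
          rw [h4, mul_zero, zero_sub, neg_eq_zero] at h
          rcases mul_eq_zero.mp h with h5 | h5
          · exact h0 h5
          · exact h3 h5
        · exact h3
      have hy1c : (y 1 : ℂ) ≠ 0 := by exact_mod_cast hy1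
      refine ⟨Units.mk0 ((y 1 : ℂ) / x 1) (div_ne_zero hy1c h0c), ?_⟩
      funext i
      simp only [Units.smul_mk0, Pi.smul_apply, smul_eq_mul]
      fin_cases i
      · show (y 1 : ℂ) / x 1 * x 0 = y 0
        field_simp
        linear_combination h2
      · show (y 1 : ℂ) / x 1 * x 1 = y 1
        field_simp

/-- The image of a line under an integer matrix. -/
theorem line_map (A : Matrix (Fin 2) (Fin 2) ℤ) (x : Fin 2 → ℤ) :
    (Submodule.span ℂ {fun i => (x i : ℂ)}).map (Matrix.toLin' (A.map (Int.cast : ℤ → ℂ))) =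
      Submodule.span ℂ {fun i => ((A *ᵥ x) i : ℂ)} := by
  rw [Submodule.map_span, Set.image_singleton]
  congr 2
  funext i
  rw [Matrix.toLin'_apply]
  simp [Matrix.mulVec, dotProduct, Fin.sum_univ_two]

end Pool.Agent.Lib.MP_571595_lc.H41
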